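import Mathlib

namespace Pool.Agent.R361.SG
open Finset

noncomputable section

/-- number of naturals `j` with `|i - j| < w` -/
theorem card_near (n i : ℕ) (w : ℝ) (hw : 0 ≤ w) :
    (((range (n + 1)).filter fun j : ℕ => |(i : ℝ) - j| < w).card : ℝ) ≤ 2 * w + 1 := by
  have h1 : (range (n + 1)).filter (fun j : ℕ => |(i : ℝ) - j| < w) ⊆
      Finset.Icc (i - ⌊w⌋₊) (i + ⌊w⌋₊) := by
    intro j hj
    rw [Finset.mem_filter] at hj
    have h2 := abs_lt.1 hj.2
    rw [Finset.mem_Icc]
    constructor
    · by_contra hc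
      push Not at hc
      have h3 : j + ⌊w⌋₊ + 1 ≤ i := by omega
      have h4 : ((j : ℝ) + ⌊w⌋₊ + 1) ≤ i := by exact_mod_cast h3
      have h5 := Nat.lt_floor_add_one w
      linarith [h2.2]
    · by_contra hc
      push Not at hc
      have h3 : i + ⌊w⌋₊ + 1 ≤ j := by omega
      have h4 : ((i : ℝ) + ⌊w⌋₊ + 1) ≤ j := by exact_mod_cast h3
      have h5 := Nat.lt_floor_add_one w
      linarith [h2.1]
  have h2 := Finset.card_le_card h1
  rw [Nat.card_Icc] at h2
  have h3 : ((range (n + 1)).filter fun j : ℕ => |(i : ℝ) - j| < w).card ≤ 2 * ⌊w⌋₊ + 1 := by omega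
  have h4 : ((((range (n + 1)).filter fun j : ℕ => |(i : ℝ) - j| < w).card : ℕ) : ℝ) ≤
      2 * (⌊w⌋₊ : ℝ) + 1 := by exact_mod_cast h3
  have h5 := Nat.floor_le hw
  linarith

/-- the pigeonhole argument -/
theorem pigeon (n : ℕ) (p : ℕ → ℝ) (M : ℕ → ℕ → ℝ) (e c C1 K κ q0 s m0 : ℝ)
    (he : 0 < e) (hc : 0 < c) (hC1 : 0 < C1) (hK : 0 < K) (hκ : 0 < κ) (hκc : κ ≤ c) (hq0 : 0 < q0)
    (hs : 0 < s) (hp : ∀ j, 0 ≤ p j) (hsum : ∑ j ∈ range (n + 1), p j = 1)
    (hC : ∀ j, p j ≤ C1 / s) (hcC : 64 * c * C1 ≤ e) (hsC : 16 * C1 ≤ e * s)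
    (htail : ∑ j ∈ (range (n + 1)).filter (fun j : ℕ => K * s < |(j : ℝ) - m0|), p j ≤ e / 16)
    (hM0 : ∀ i j, 0 ≤ M i j) (hM1 : ∀ i j, M i j ≤ 1) (hMs : ∀ i j, M i j = M j i)
    (hS : e ≤ ∑ i ∈ range (n + 1), ∑ j ∈ range (n + 1), p i * p j * M i j)
    (hκs : 2 ≤ κ * s) (hs1 : 1 ≤ s) (hq : q0 * ((4 * K + 2) / κ + 2) ≤ e / 8) :
    ∃ r b : ℕ, |(r : ℝ) - m0| ≤ K * s ∧ |(b : ℝ) - m0| ≤ (K + c) * s ∧ (r : ℝ) + c * s ≤ b ∧
      q0 ≤ ∑ j ∈ (range (n + 1)).filter (fun j => b ≤ j ∧ j < b + ⌊κ * s⌋₊), p j ∧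
      e / 8 * ∑ j ∈ (range (n + 1)).filter (fun j => b ≤ j ∧ j < b + ⌊κ * s⌋₊), p j ≤
        ∑ j ∈ (range (n + 1)).filter (fun j => b ≤ j ∧ j < b + ⌊κ * s⌋₊), p j * M r j := by
  classical
  by_contra hcon
  push Not at hcon
  set l := ⌊κ * s⌋₊ with hl
  set R := range (n + 1) with hR
  have hl1 : (l : ℝ) ≤ κ * s := Nat.floor_le (by positivity)
  have hl2 : κ * s < l + 1 := Nat.lt_floor_add_one _
  have hl3 : κ * s / 2 ≤ l := by linarith
  have hlpos : (0 : ℝ) < l := by linarith
  have hlpos' : 0 < l := by exact_mod_cast hlpos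
  have hlc : (l : ℝ) ≤ c * s := hl1.trans (by nlinarith)
  -- block sums
  set P : ℕ → ℝ := fun b => ∑ j ∈ R.filter (fun j => b ≤ j ∧ j < b + l), p j with hP
  -- inner sums
  have inner : ∀ i ∈ R, |(i : ℝ) - m0| ≤ K * s →
      ∑ j ∈ R.filter (fun j : ℕ => |(j : ℝ) - m0| ≤ K * s ∧ (i : ℝ) + 2 * c * s ≤ j), p j * M i j
        ≤ e / 4 := by
    intro i _ hi
    set Js := R.filter (fun j : ℕ => |(j : ℝ) - m0| ≤ K * s ∧ (i : ℝ) + 2 * c * s ≤ j) with hJs
    set Ks := Js.image (fun j => j / l) with hKs
    rw [← Finset.sum_fiberwise_of_maps_to (g := fun j => j / l) (s := Js) (t := Ks)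
      (fun j hj => Finset.mem_image_of_mem _ hj)]
    have hblock : ∀ k ∈ Ks, ∑ j ∈ Js.filter (fun j => j / l = k), p j * M i j ≤
        e / 8 * P (l * k) + q0 := by
      intro k hk
      rw [hKs, Finset.mem_image] at hk
      obtain ⟨j0, hj0, hjk⟩ := hk
      rw [hJs, Finset.mem_filter] at hj0
      have hdiv := Nat.div_add_mod j0 l
      have hmod := Nat.mod_lt j0 hlpos'
      rw [hjk] at hdiv
      have hb1 : (l * k : ℕ) ≤ j0 := by omega
      have hb2 : j0 < l * k + l := by omega
      have hb1' : ((l * k : ℕ) : ℝ) ≤ j0 := by exact_mod_cast hb1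
      have hb2' : (j0 : ℝ) < ((l * k : ℕ) : ℝ) + l := by exact_mod_cast hb2
      have habs := abs_le.1 hj0.2.1
      have hsub : ∑ j ∈ Js.filter (fun j => j / l = k), p j * M i j ≤
          ∑ j ∈ R.filter (fun j => l * k ≤ j ∧ j < l * k + l), p j * M i j := by
        apply Finset.sum_le_sum_of_subset_of_nonneg
        · intro j hj
          rw [Finset.mem_filter, hJs, Finset.mem_filter] at hj
          rw [Finset.mem_filter]
          have hd := Nat.div_add_mod j l
          have hm := Nat.mod_lt j hlpos'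
          rw [hj.2] at hd
          exact ⟨hj.1.1, by omega, by omega⟩
        · intro j _ _
          exact mul_nonneg (hp j) (hM0 i j)
      by_cases hPq : q0 ≤ P (l * k)
      · have h1 := hcon i (l * k) hi (by
          rw [abs_le]
          constructor
          · have := habs.1
            nlinarith
          · have := habs.2
            nlinarith) (by
          have := hj0.2.2
          nlinarith) hPq
        have : 0 < q0 := hq0
        calc _ ≤ _ := hsub
          _ ≤ e / 8 * P (l * k) := h1.le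
          _ ≤ _ := by linarith
      · push Not at hPq
        have h2 : ∑ j ∈ R.filter (fun j => l * k ≤ j ∧ j < l * k + l), p j * M i j ≤
            P (l * k) := by
          apply Finset.sum_le_sum
          intro j _
          have := hM1 i j
          have := hp j
          nlinarith
        have h3 : 0 ≤ P (l * k) := Finset.sum_nonneg (fun j _ => hp j)
        have h4 : 0 ≤ e / 8 * P (l * k) := by positivity
        linarith
    have hsumP : ∑ k ∈ Ks, P (l * k) ≤ 1 := by
      rw [← hsum]
      have h1 : ∀ k ∈ Ks, P (l * k) = ∑ j ∈ R, if j / l = k then p j else 0 := by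
        intro k _
        rw [hP]
        simp only
        rw [← Finset.sum_filter]
        apply Finset.sum_congr _ (fun _ _ => rfl)
        ext j
        rw [Finset.mem_filter, Finset.mem_filter]
        have hd := Nat.div_add_mod j l
        have hm := Nat.mod_lt j hlpos'
        constructor
        · rintro ⟨h1, h2, h3⟩
          refine ⟨h1, ?_⟩
          rw [Nat.div_eq_iff hlpos']
          constructor
          · rw [mul_comm]; exact h2
          · rw [mul_comm k l]; omega
        · rintro ⟨h1, h2⟩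
          rw [h2] at hd
          exact ⟨h1, by omega, by omega⟩
      rw [Finset.sum_congr rfl h1, Finset.sum_comm]
      apply Finset.sum_le_sum
      intro j _
      rw [Finset.sum_ite_eq]
      split_ifs
      · exact le_rfl
      · exact hp j
    have hcardK : (Ks.card : ℝ) ≤ (4 * K + 2) / κ + 2 := by
      set a := ⌊m0 - K * s⌋₊ with ha
      set a' := ⌊m0 + K * s⌋₊ with ha'
      by_cases hKe : Ks.Nonempty
      · obtain ⟨k0, hk0⟩ := hKe
        have hsubK : Ks ⊆ Finset.Icc (a / l) (a' / l) := by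
          intro k hk
          rw [hKs, Finset.mem_image] at hk
          obtain ⟨j0, hj0, hjk⟩ := hk
          rw [hJs, Finset.mem_filter] at hj0
          have habs := abs_le.1 hj0.2.1
          rw [Finset.mem_Icc, ← hjk]
          constructor
          · apply Nat.div_le_div_right
            rw [ha]
            apply Nat.floor_le_of_le
            linarith
          · apply Nat.div_le_div_right
            rw [ha']
            apply Nat.le_floor
            linarith
        have hpos : 0 ≤ m0 + K * s := by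
          rw [hKs, Finset.mem_image] at hk0
          obtain ⟨j0, hj0, _⟩ := hk0
          rw [hJs, Finset.mem_filter] at hj0
          have habs := abs_le.1 hj0.2.1
          have : (0 : ℝ) ≤ j0 := by positivity
          linarith
        have h1 := Finset.card_le_card hsubK
        rw [Nat.card_Icc] at h1
        have h2 : a / l ≤ a' / l := by
          have := hsubK hk0
          rw [Finset.mem_Icc] at this
          omega
        have h3 : Ks.card + a / l ≤ a' / l + 1 := by omega
        have h4 : (Ks.card : ℝ) + ((a / l : ℕ) : ℝ) ≤ ((a' / l : ℕ) : ℝ) + 1 := by exact_mod_cast h3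
        have h5 : ((a' / l : ℕ) : ℝ) ≤ (m0 + K * s) / l := by
          calc ((a' / l : ℕ) : ℝ) ≤ (a' : ℝ) / l := Nat.cast_div_le
            _ ≤ _ := by
              apply div_le_div_of_nonneg_right _ hlpos.le
              exact Nat.floor_le hpos
        have h6 : (m0 - K * s - 1) / l - 1 ≤ ((a / l : ℕ) : ℝ) := by
          have h7 : (a : ℝ) / l < ((a / l : ℕ) : ℝ) + 1 := by
            rw [div_lt_iff₀ hlpos]
            have hd := Nat.div_add_mod a l
            have hm := Nat.mod_lt a hlpos'
            have : a < (a / l + 1) * l := by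
              calc a = l * (a / l) + a % l := hd.symm
                _ < l * (a / l) + l := by omega
                _ = (a / l + 1) * l := by ring
            exact_mod_cast this
          have h8 : m0 - K * s - 1 ≤ a := by
            have := Nat.lt_floor_add_one (m0 - K * s)
            rw [← ha] at this
            linarith
          have h9 : (m0 - K * s - 1) / l ≤ (a : ℝ) / l :=
            div_le_div_of_nonneg_right h8 hlpos.le
          linarith
        have h10 : (Ks.card : ℝ) ≤ (2 * K * s + 1) / l + 2 := by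
          have : (m0 + K * s) / l - (m0 - K * s - 1) / l = (2 * K * s + 1) / l := by ring
          linarith
        have h11 : (2 * K * s + 1) / l ≤ (4 * K + 2) / κ := by
          rw [div_le_div_iff₀ hlpos hκ]
          have : (2 * K * s + 1) * κ ≤ (2 * K * s + s) * κ := by nlinarith
          have h12 : (4 * K + 2) * (κ * s / 2) ≤ (4 * K + 2) * l := by
            apply mul_le_mul_of_nonneg_left hl3 (by positivity)
          nlinarith
        linarith
      · rw [Finset.not_nonempty_iff_eq_empty] at hKe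
        rw [hKe, Finset.card_empty]
        push_cast
        positivity
    calc _ ≤ ∑ k ∈ Ks, (e / 8 * P (l * k) + q0) := Finset.sum_le_sum hblock
      _ = e / 8 * ∑ k ∈ Ks, P (l * k) + Ks.card * q0 := by
        rw [Finset.sum_add_distrib, ← Finset.mul_sum, Finset.sum_const, nsmul_eq_mul]
      _ ≤ e / 8 * 1 + ((4 * K + 2) / κ + 2) * q0 := by
        have h1 : e / 8 * ∑ k ∈ Ks, P (l * k) ≤ e / 8 * 1 := by
          apply mul_le_mul_of_nonneg_left hsumP (by positivity)
        have h2 : (Ks.card : ℝ) * q0 ≤ ((4 * K + 2) / κ + 2) * q0 :=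
          mul_le_mul_of_nonneg_right hcardK hq0.le
        linarith
      _ ≤ e / 4 := by linarith
  -- the four parts
  set W : ℕ → Prop := fun j => |(j : ℝ) - m0| ≤ K * s with hW
  set D := ∑ i ∈ R.filter W, p i * ∑ j ∈ R.filter (fun j : ℕ => |(j : ℝ) - m0| ≤ K * s ∧
    (i : ℝ) + 2 * c * s ≤ j), p j * M i j with hD
  have hDle : D ≤ e / 4 := by
    have h1 : D ≤ ∑ i ∈ R.filter W, p i * (e / 4) := by
      apply Finset.sum_le_sum
      intro i hi
      rw [Finset.mem_filter] at hi
      exact mul_le_mul_of_nonneg_left (inner i hi.1 hi.2) (hp i)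
    have h2 : ∑ i ∈ R.filter W, p i * (e / 4) ≤ ∑ i ∈ R, p i * (e / 4) :=
      Finset.sum_le_sum_of_subset_of_nonneg (Finset.filter_subset _ _)
        (fun i _ _ => mul_nonneg (hp i) (by positivity))
    have h3 : ∑ i ∈ R, p i * (e / 4) = e / 4 := by rw [← Finset.sum_mul, hsum, one_mul]
    linarith
  set B := ∑ j ∈ R.filter (fun j : ℕ => K * s < |(j : ℝ) - m0|), p j with hB
  set A := ∑ i ∈ R, p i * ∑ j ∈ R.filter (fun j : ℕ => |(i : ℝ) - j| < 2 * c * s), p j with hA
  have hAle : A ≤ e / 8 := by
    have h1 : ∀ i ∈ R, p i * ∑ j ∈ R.filter (fun j : ℕ => |(i : ℝ) - j| < 2 * c * s), p j ≤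
        p i * (e / 8) := by
      intro i _
      apply mul_le_mul_of_nonneg_left _ (hp i)
      calc _ ≤ ∑ j ∈ R.filter (fun j : ℕ => |(i : ℝ) - j| < 2 * c * s), C1 / s :=
            Finset.sum_le_sum (fun j _ => hC j)
        _ = ((R.filter (fun j : ℕ => |(i : ℝ) - j| < 2 * c * s)).card : ℝ) * (C1 / s) := by
            rw [Finset.sum_const, nsmul_eq_mul]
        _ ≤ (2 * (2 * c * s) + 1) * (C1 / s) := by
            apply mul_le_mul_of_nonneg_right (card_near n i _ (by positivity)) (by positivity)
        _ = 4 * c * C1 + C1 / s := by field_simp; ring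
        _ ≤ e / 8 := by
            have : C1 / s ≤ e / 16 := by
              rw [div_le_iff₀ hs]; linarith
            linarith
    calc A ≤ ∑ i ∈ R, p i * (e / 8) := Finset.sum_le_sum h1
      _ = e / 8 := by rw [← Finset.sum_mul, hsum, one_mul]
  have hfin : ∑ i ∈ R, ∑ j ∈ R, p i * p j * M i j ≤ A + 2 * B + 2 * D := by
    have e1 : A = ∑ i ∈ R, ∑ j ∈ R, if |(i : ℝ) - j| < 2 * c * s then p i * p j else 0 := by
      rw [hA]
      apply Finset.sum_congr rfl
      intro i _
      rw [Finset.mul_sum, Finset.sum_filter]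
    have e2 : B = ∑ i ∈ R, ∑ j ∈ R, if K * s < |(j : ℝ) - m0| then p i * p j else 0 := by
      have : ∀ i ∈ R, ∑ j ∈ R, (if K * s < |(j : ℝ) - m0| then p i * p j else 0) = p i * B := by
        intro i _
        rw [hB, Finset.mul_sum, Finset.sum_filter]
      rw [Finset.sum_congr rfl this, ← Finset.sum_mul, hsum, one_mul]
    have e3 : B = ∑ i ∈ R, ∑ j ∈ R, if K * s < |(i : ℝ) - m0| then p i * p j else 0 := by
      rw [Finset.sum_comm]
      conv_lhs => rw [e2]
      apply Finset.sum_congr rfl
      intro i _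
      apply Finset.sum_congr rfl
      intro j _
      split_ifs
      · ring
      · rfl
    have e4 : D = ∑ i ∈ R, ∑ j ∈ R, if (|(i : ℝ) - m0| ≤ K * s ∧ |(j : ℝ) - m0| ≤ K * s ∧
        (i : ℝ) + 2 * c * s ≤ j) then p i * p j * M i j else 0 := by
      rw [hD, Finset.sum_filter]
      apply Finset.sum_congr rfl
      intro i _
      by_cases hi : W i
      · rw [if_pos hi, Finset.mul_sum, Finset.sum_filter]
        apply Finset.sum_congr rfl
        intro j _
        have hi' : |(i : ℝ) - m0| ≤ K * s := hi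
        by_cases hj : |(j : ℝ) - m0| ≤ K * s ∧ (i : ℝ) + 2 * c * s ≤ j
        · rw [if_pos hj, if_pos ⟨hi', hj⟩]; ring
        · rw [if_neg hj, if_neg (fun h => hj h.2)]
      · rw [if_neg hi]
        symm
        apply Finset.sum_eq_zero
        intro j _
        rw [if_neg (fun h => hi h.1)]
    have e5 : D = ∑ i ∈ R, ∑ j ∈ R, if (|(j : ℝ) - m0| ≤ K * s ∧ |(i : ℝ) - m0| ≤ K * s ∧
        (j : ℝ) + 2 * c * s ≤ i) then p i * p j * M i j else 0 := by
      rw [Finset.sum_comm]
      conv_lhs => rw [e4]
      apply Finset.sum_congr rfl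
      intro i _
      apply Finset.sum_congr rfl
      intro j _
      split_ifs
      · rw [hMs i j]; ring
      · rfl
    have e6 : A + 2 * B + 2 * D = A + B + B + D + D := by ring
    rw [e6]
    nth_rewrite 1 [e3]
    nth_rewrite 1 [e2]
    nth_rewrite 1 [e4]
    rw [e5, e1]
    simp only [← Finset.sum_add_distrib]
    apply Finset.sum_le_sum
    intro i _
    apply Finset.sum_le_sum
    intro j _
    have hpp : 0 ≤ p i * p j := mul_nonneg (hp i) (hp j)
    have hpm : 0 ≤ p i * p j * M i j := mul_nonneg hpp (hM0 i j)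
    have hpm1 : p i * p j * M i j ≤ p i * p j := by
      have := hM1 i j
      nlinarith
    by_cases c1 : |(i : ℝ) - j| < 2 * c * s
    · rw [if_pos c1]
      split_ifs <;> linarith
    · rw [if_neg c1]
      by_cases c2 : K * s < |(i : ℝ) - m0|
      · rw [if_pos c2]
        split_ifs <;> linarith
      · by_cases c3 : K * s < |(j : ℝ) - m0|
        · rw [if_pos c3]
          split_ifs <;> linarith
        · push Not at c1 c2 c3
          rcases le_abs.1 c1 with h | h
          · have h5 : (|(j : ℝ) - m0| ≤ K * s ∧ |(i : ℝ) - m0| ≤ K * s ∧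
              (j : ℝ) + 2 * c * s ≤ i) := ⟨c3, c2, by linarith⟩
            rw [if_pos h5]
            split_ifs <;> linarith
          · have h5 : (|(i : ℝ) - m0| ≤ K * s ∧ |(j : ℝ) - m0| ≤ K * s ∧
              (i : ℝ) + 2 * c * s ≤ j) := ⟨c2, c3, by linarith⟩
            rw [if_pos h5]
            split_ifs <;> linarith
  linarith

end

end Pool.Agent.R361.SG
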