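import Pool.Agent.R341.SG.Stm

namespace Pool.Agent.R361.SG
open Finset Pool.Agent.R341.SG

noncomputable section

theorem exists_perm_map {α : Type*} [Fintype α] [DecidableEq α] {A B : Finset α}
    (h : A.card = B.card) : ∃ σ : Equiv.Perm α, A.map σ.toEmbedding = B := by
  classical
  let e : {x // x ∈ A} ≃ {x // x ∈ B} := Finset.equivOfCardEq h
  refine ⟨e.extendSubtype, ?_⟩
  apply Finset.eq_of_subset_of_card_le
  · intro y hy
    rw [Finset.mem_map] at hy
    obtain ⟨x, hx, rfl⟩ := hy
    exact e.extendSubtype_mem x hx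
  · rw [Finset.card_map, h]

theorem exists_perm_flag {α : Type*} [Fintype α] [DecidableEq α] {I J I0 J0 : Finset α}
    (hIJ : I ⊆ J) (h0 : I0 ⊆ J0) (hI : I.card = I0.card) (hJ : J.card = J0.card) :
    ∃ σ : Equiv.Perm α, I0.map σ.toEmbedding = I ∧ J0.map σ.toEmbedding = J := by
  classical
  obtain ⟨p, hp⟩ := exists_perm_map hJ.symm
  have hsub : I0.map p.toEmbedding ⊆ J := by
    rw [← hp]; exact Finset.map_subset_map.2 h0
  have hc : ((I0.map p.toEmbedding).subtype (fun x => x ∈ J)).card =
      (I.subtype (fun x => x ∈ J)).card := by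
    rw [Finset.card_subtype, Finset.card_subtype, Finset.filter_true_of_mem (fun x hx => hsub hx),
      Finset.filter_true_of_mem (fun x hx => hIJ hx), Finset.card_map, hI]
  obtain ⟨s, hs⟩ := exists_perm_map hc
  have hJm : ∀ x ∈ J, Equiv.Perm.ofSubtype s x ∈ J := by
    intro x hx
    rw [Equiv.Perm.ofSubtype_apply_of_mem s hx]
    exact (s ⟨x, hx⟩).2
  refine ⟨Equiv.Perm.ofSubtype s * p, ?_, ?_⟩
  · apply Finset.eq_of_subset_of_card_le
    · intro y hy
      rw [Finset.mem_map] at hy
      obtain ⟨x, hx, rfl⟩ := hy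
      have h1 : p x ∈ I0.map p.toEmbedding := Finset.mem_map.2 ⟨x, hx, rfl⟩
      have h2 : p x ∈ J := hsub h1
      have h3 : s ⟨p x, h2⟩ ∈ I.subtype (fun x => x ∈ J) := by
        rw [← hs]
        exact Finset.mem_map.2 ⟨⟨p x, h2⟩, by rw [Finset.mem_subtype]; exact h1, rfl⟩
      rw [Finset.mem_subtype] at h3
      change Equiv.Perm.ofSubtype s (p x) ∈ I
      rw [Equiv.Perm.ofSubtype_apply_of_mem s h2]
      exact h3
    · rw [Finset.card_map, hI]
  · apply Finset.eq_of_subset_of_card_le
    · intro y hy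
      rw [Finset.mem_map] at hy
      obtain ⟨x, hx, rfl⟩ := hy
      change Equiv.Perm.ofSubtype s (p x) ∈ J
      apply hJm
      rw [← hp]
      exact Finset.mem_map.2 ⟨x, hx, rfl⟩
    · rw [Finset.card_map, hJ]

/-- initial segment -/
def ini (n j : ℕ) : Finset (Fin n) := univ.filter fun x => x.val < j

theorem card_ini {n j : ℕ} (h : j ≤ n) : (ini n j).card = j := by
  have : ini n j = (univ : Finset (Fin j)).map (Fin.castLEEmb h) := by
    ext x
    simp only [ini, Finset.mem_filter, Finset.mem_univ, true_and, Finset.mem_map,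
      Fin.castLEEmb_apply]
    constructor
    · intro hx
      exact ⟨⟨x.val, hx⟩, by ext; rfl⟩
    · rintro ⟨y, rfl⟩
      exact y.2
  rw [this, Finset.card_map, Finset.card_univ, Fintype.card_fin]

theorem ini_mono {n i j : ℕ} (h : i ≤ j) : ini n i ⊆ ini n j := by
  intro x hx
  simp only [ini, Finset.mem_filter, Finset.mem_univ, true_and] at hx ⊢
  omega

theorem sum_flags_map {n : ℕ} (r j : ℕ) (F G : Finset (Fin n) → ℝ) (p : Equiv.Perm (Fin n)) :
    ∑ J ∈ powersetCard j (univ : Finset (Fin n)), ∑ I ∈ powersetCard r J,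
      F (I.map p.toEmbedding) * G (J.map p.toEmbedding) =
    ∑ J ∈ powersetCard j (univ : Finset (Fin n)), ∑ I ∈ powersetCard r J, F I * G J := by
  have h1 : ∀ J : Finset (Fin n), ∑ I ∈ powersetCard r J,
      F (I.map p.toEmbedding) * G (J.map p.toEmbedding) =
      ∑ I ∈ powersetCard r (J.map p.toEmbedding), F I * G (J.map p.toEmbedding) := by
    intro J
    rw [Finset.powersetCard_map, Finset.sum_map]
    rfl
  rw [Finset.sum_congr rfl (fun J _ => h1 J)]
  have h2 : powersetCard j (univ : Finset (Fin n)) =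
      (powersetCard j (univ : Finset (Fin n))).map (Finset.mapEmbedding p.toEmbedding).toEmbedding := by
    rw [← Finset.powersetCard_map]
    congr 1
    rw [Finset.map_univ_equiv]
  conv_rhs => rw [h2]
  rw [Finset.sum_map]
  rfl

theorem sum_perm {n r j : ℕ} (hrj : r ≤ j) (hj : j ≤ n) (F G : Finset (Fin n) → ℝ) :
    (∑ p : Equiv.Perm (Fin n), F ((ini n r).map p.toEmbedding) * G ((ini n j).map p.toEmbedding))
      * ((n.choose j : ℝ) * (j.choose r : ℝ)) =
    (n.factorial : ℝ) * ∑ J ∈ powersetCard j (univ : Finset (Fin n)),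
      ∑ I ∈ powersetCard r J, F I * G J := by
  set S := ∑ p : Equiv.Perm (Fin n),
    F ((ini n r).map p.toEmbedding) * G ((ini n j).map p.toEmbedding) with hS
  have key : ∀ J ∈ powersetCard j (univ : Finset (Fin n)), ∀ I ∈ powersetCard r J,
      ∑ p : Equiv.Perm (Fin n), F (I.map p.toEmbedding) * G (J.map p.toEmbedding) = S := by
    intro J hJ I hI
    rw [Finset.mem_powersetCard] at hJ hI
    obtain ⟨t, ht1, ht2⟩ := exists_perm_flag (I0 := ini n r) (J0 := ini n j) hI.1 (ini_mono hrj)
      (by rw [card_ini (hrj.trans hj), hI.2]) (by rw [card_ini hj, hJ.2])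
    rw [hS]
    conv_rhs => rw [← Equiv.sum_comp (Equiv.mulRight t)]
    apply Finset.sum_congr rfl
    intro p _
    rw [← ht1, ← ht2]
    rw [Finset.map_map, Finset.map_map]
    rfl
  have h1 : ∑ J ∈ powersetCard j (univ : Finset (Fin n)), ∑ I ∈ powersetCard r J,
      ∑ p : Equiv.Perm (Fin n), F (I.map p.toEmbedding) * G (J.map p.toEmbedding) =
      S * ((n.choose j : ℝ) * (j.choose r : ℝ)) := by
    rw [Finset.sum_congr rfl (fun J hJ => Finset.sum_congr rfl (fun I hI => key J hJ I hI))]
    have h2 : ∀ J ∈ powersetCard j (univ : Finset (Fin n)), ∑ _I ∈ powersetCard r J, S =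
        (j.choose r : ℝ) * S := by
      intro J hJ
      rw [Finset.mem_powersetCard] at hJ
      rw [Finset.sum_const, Finset.card_powersetCard, hJ.2, nsmul_eq_mul]
    rw [Finset.sum_congr rfl h2, Finset.sum_const, Finset.card_powersetCard, Finset.card_univ,
      Fintype.card_fin, nsmul_eq_mul]
    ring
  rw [← h1]
  have h3 : ∀ J ∈ powersetCard j (univ : Finset (Fin n)), ∑ I ∈ powersetCard r J,
      ∑ p : Equiv.Perm (Fin n), F (I.map p.toEmbedding) * G (J.map p.toEmbedding) =
      ∑ p : Equiv.Perm (Fin n), ∑ I ∈ powersetCard r J,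
        F (I.map p.toEmbedding) * G (J.map p.toEmbedding) := fun J _ => Finset.sum_comm
  rw [Finset.sum_congr rfl h3, Finset.sum_comm]
  rw [Finset.sum_congr rfl (fun p _ => sum_flags_map r j F G p), Finset.sum_const,
    Finset.card_univ, Fintype.card_perm, Fintype.card_fin, nsmul_eq_mul]

theorem im_comp {n : ℕ} (s : Equiv.Perm (Fin n)) (f : Fin n → Fin n) :
    im (s ∘ f) = (im f).map s.toEmbedding := by
  ext y
  simp only [im, Finset.mem_image, Finset.mem_univ, true_and, Finset.mem_map,
    Function.comp_apply]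
  constructor
  · rintro ⟨x, rfl⟩
    exact ⟨f x, ⟨x, rfl⟩, rfl⟩
  · rintro ⟨_, ⟨x, rfl⟩, rfl⟩
    exact ⟨x, rfl⟩

theorem card_onto {n : ℕ} {J J' : Finset (Fin n)} (h : J.card = J'.card) :
    (onto J).card = (onto J').card := by
  obtain ⟨s, hs⟩ := exists_perm_map h
  apply Finset.card_bij' (fun f _ => s ∘ f) (fun f _ => s.symm ∘ f)
  · intro f hf
    simp only [onto, Finset.mem_filter, Finset.mem_univ, true_and] at hf ⊢
    rw [im_comp, hf, hs]
  · intro f hf
    simp only [onto, Finset.mem_filter, Finset.mem_univ, true_and] at hf ⊢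
    rw [im_comp, hf, ← hs, Finset.map_map]
    ext x
    simp
  · intro f _
    ext x
    simp
  · intro f _
    ext x
    simp

/-- number of maps of rank `j` -/
def cc (n j : ℕ) : ℝ := (((univ : Finset (Fin n → Fin n)).filter fun f => rk f = j).card : ℝ)

theorem cc_eq {n j : ℕ} (hj : j ≤ n) : cc n j = (n.choose j : ℝ) * ((onto (ini n j)).card : ℝ) := by
  unfold cc
  have h1 := Finset.card_eq_sum_card_fiberwise (f := fun f : Fin n → Fin n => im f)
    (s := (univ : Finset (Fin n → Fin n)).filter fun f => rk f = j)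
    (t := powersetCard j (univ : Finset (Fin n))) (by
      intro f hf
      rw [Finset.mem_coe, Finset.mem_filter] at hf
      rw [Finset.mem_coe, Finset.mem_powersetCard]
      exact ⟨Finset.subset_univ _, hf.2⟩)
  rw [h1]
  push_cast
  have h2 : ∀ J ∈ powersetCard j (univ : Finset (Fin n)),
      (((((univ : Finset (Fin n → Fin n)).filter fun f => rk f = j).filter
        fun f => im f = J).card : ℕ) : ℝ) = ((onto (ini n j)).card : ℝ) := by
    intro J hJ
    rw [Finset.mem_powersetCard] at hJ
    rw [card_onto (J := ini n j) (J' := J) (by rw [card_ini hj, hJ.2])]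
    congr 2
    ext f
    simp only [onto, Finset.mem_filter, Finset.mem_univ, true_and]
    constructor
    · exact fun h => h.2
    · intro h
      refine ⟨?_, h⟩
      unfold rk
      rw [h, hJ.2]
  rw [Finset.sum_congr rfl h2, Finset.sum_const, Finset.card_powersetCard, Finset.card_univ,
    Fintype.card_fin, nsmul_eq_mul]

theorem dn_mul {n : ℕ} (X : Finset (Fin n → Fin n)) (J : Finset (Fin n)) :
    dn X J * ((onto J).card : ℝ) = ((X.filter fun f => im f = J).card : ℝ) := by
  unfold dn
  by_cases h : ((onto J).card : ℝ) = 0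
  · have h0 : (X.filter fun f => im f = J).card ≤ (onto J).card := by
      apply Finset.card_le_card
      intro f hf
      rw [Finset.mem_filter] at hf
      simp only [onto, Finset.mem_filter, Finset.mem_univ, true_and]
      exact hf.2
    have h1 : (onto J).card = 0 := by exact_mod_cast h
    rw [h1] at h0
    have h2 : (X.filter fun f => im f = J).card = 0 := by omega
    rw [h2, h]
    simp
  · field_simp

theorem dn_nonneg {n : ℕ} (X : Finset (Fin n → Fin n)) (J : Finset (Fin n)) : 0 ≤ dn X J := by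
  unfold dn; positivity

theorem dn_le_one {n : ℕ} (X : Finset (Fin n → Fin n)) (J : Finset (Fin n)) : dn X J ≤ 1 := by
  unfold dn
  apply div_le_one_of_le₀ _ (by positivity)
  have h0 : (X.filter fun f => im f = J).card ≤ (onto J).card := by
    apply Finset.card_le_card
    intro f hf
    rw [Finset.mem_filter] at hf
    simp only [onto, Finset.mem_filter, Finset.mem_univ, true_and]
    exact hf.2
  exact_mod_cast h0

/-- first moment -/
theorem first_moment {n j : ℕ} (hj : j ≤ n) (X : Finset (Fin n → Fin n)) :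
    (∑ p : Equiv.Perm (Fin n), dn X ((ini n j).map p.toEmbedding)) * cc n j =
      (n.factorial : ℝ) * ((X.filter fun f => rk f = j).card : ℝ) := by
  have h := sum_perm (n := n) (r := 0) (j := j) (Nat.zero_le _) hj (fun _ => 1) (fun J => dn X J)
  simp only [one_mul, Nat.choose_zero_right, Nat.cast_one, mul_one, Finset.powersetCard_zero,
    Finset.sum_singleton] at h
  rw [cc_eq hj, ← mul_assoc, h, mul_assoc, Finset.sum_mul]
  congr 1
  have h1 : ∀ J ∈ powersetCard j (univ : Finset (Fin n)),
      dn X J * ((onto (ini n j)).card : ℝ) = ((X.filter fun f => im f = J).card : ℝ) := by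
    intro J hJ
    rw [Finset.mem_powersetCard] at hJ
    rw [card_onto (J := ini n j) (J' := J) (by rw [card_ini hj, hJ.2]), dn_mul]
  rw [Finset.sum_congr rfl h1]
  have h2 := Finset.card_eq_sum_card_fiberwise (f := fun f : Fin n → Fin n => im f)
    (s := X.filter fun f => rk f = j)
    (t := powersetCard j (univ : Finset (Fin n))) (by
      intro f hf
      rw [Finset.mem_coe, Finset.mem_filter] at hf
      rw [Finset.mem_coe, Finset.mem_powersetCard]
      exact ⟨Finset.subset_univ _, hf.2⟩)
  rw [h2]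
  push_cast
  apply Finset.sum_congr rfl
  intro J hJ
  rw [Finset.mem_powersetCard] at hJ
  congr 2
  ext f
  simp only [Finset.mem_filter]
  constructor
  · rintro ⟨h3, h4⟩
    refine ⟨⟨h3, ?_⟩, h4⟩
    unfold rk
    rw [h4, hJ.2]
  · rintro ⟨⟨h3, _⟩, h4⟩
    exact ⟨h3, h4⟩

/-- second moment -/
theorem second_moment {n r j : ℕ} (hrj : r ≤ j) (hj : j ≤ n) (X : Finset (Fin n → Fin n)) :
    (∑ p : Equiv.Perm (Fin n), dn X ((ini n r).map p.toEmbedding) *
      dn X ((ini n j).map p.toEmbedding)) * cc n j =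
      (n.factorial : ℝ) * ∑ f ∈ X.filter (fun f => rk f = j),
        (∑ I ∈ powersetCard r (im f), dn X I) / ((rk f).choose r : ℝ) := by
  have h := sum_perm (n := n) (r := r) (j := j) hrj hj (fun I => dn X I) (fun J => dn X J)
  have hch : ((j.choose r : ℕ) : ℝ) ≠ 0 := by
    have := Nat.choose_pos hrj
    positivity
  set S := ∑ p : Equiv.Perm (Fin n), dn X ((ini n r).map p.toEmbedding) *
      dn X ((ini n j).map p.toEmbedding) with hS
  have e1 : S * cc n j = (S * ((n.choose j : ℝ) * (j.choose r : ℝ))) *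
      ((onto (ini n j)).card : ℝ) / (j.choose r : ℝ) := by
    rw [cc_eq hj]
    field_simp
  rw [e1, h, mul_assoc, mul_div_assoc, Finset.sum_mul]
  congr 1
  have h1 : ∀ J ∈ powersetCard j (univ : Finset (Fin n)),
      (∑ I ∈ powersetCard r J, dn X I * dn X J) * ((onto (ini n j)).card : ℝ) =
      ((X.filter fun f => im f = J).card : ℝ) * ∑ I ∈ powersetCard r J, dn X I := by
    intro J hJ
    rw [Finset.mem_powersetCard] at hJ
    rw [card_onto (J := ini n j) (J' := J) (by rw [card_ini hj, hJ.2]), ← Finset.sum_mul,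
      mul_assoc, dn_mul, mul_comm]
  rw [Finset.sum_congr rfl h1, Finset.sum_div]
  rw [← Finset.sum_fiberwise_of_maps_to (g := fun f : Fin n → Fin n => im f)
    (s := X.filter fun f => rk f = j)
    (t := powersetCard j (univ : Finset (Fin n))) (by
      intro f hf
      rw [Finset.mem_filter] at hf
      rw [Finset.mem_powersetCard]
      exact ⟨Finset.subset_univ _, hf.2⟩)]
  apply Finset.sum_congr rfl
  intro J hJ
  rw [Finset.mem_powersetCard] at hJ
  have h5 : (X.filter fun f => rk f = j).filter (fun f => im f = J) =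
      X.filter fun f => im f = J := by
    ext f
    simp only [Finset.mem_filter]
    constructor
    · rintro ⟨⟨h3, _⟩, h4⟩
      exact ⟨h3, h4⟩
    · rintro ⟨h3, h4⟩
      refine ⟨⟨h3, ?_⟩, h4⟩
      unfold rk
      rw [h4, hJ.2]
  rw [h5]
  have h6 : ∀ f ∈ X.filter (fun f => im f = J),
      (∑ I ∈ powersetCard r (im f), dn X I) / ((rk f).choose r : ℝ) =
      (∑ I ∈ powersetCard r J, dn X I) / (j.choose r : ℝ) := by
    intro f hf
    rw [Finset.mem_filter] at hf
    unfold rk
    rw [hf.2, hJ.2]
  rw [Finset.sum_congr rfl h6, Finset.sum_const, nsmul_eq_mul, mul_div_assoc]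

end

end Pool.Agent.R361.SG
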