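import Pool.Agent.R361.SG.Comb
import Pool.Agent.R361.SG.An

namespace Pool.Agent.R361.SG
open Finset Pool.Agent.R341.SG

noncomputable section

theorem rk_le {n : ℕ} (f : Fin n → Fin n) : rk f ≤ n := by
  have := Finset.card_le_univ (im f)
  rwa [Fintype.card_fin] at this

/-- sum of `cc` over a set of ranks -/
theorem sum_cc (n : ℕ) (Q : ℕ → Prop) [DecidablePred Q] :
    ∑ j ∈ (range (n + 1)).filter Q, cc n j =
      (((univ : Finset (Fin n → Fin n)).filter fun f => Q (rk f)).card : ℝ) := by
  have h := Finset.card_eq_sum_card_fiberwise (f := fun f : Fin n → Fin n => rk f)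
    (s := (univ : Finset (Fin n → Fin n)).filter fun f => Q (rk f))
    (t := (range (n + 1)).filter Q) (by
      intro f hf
      rw [Finset.mem_coe, Finset.mem_filter] at hf
      rw [Finset.mem_coe, Finset.mem_filter, Finset.mem_range]
      exact ⟨Nat.lt_succ_of_le (rk_le f), hf.2⟩)
  rw [h]
  push_cast
  apply Finset.sum_congr rfl
  intro j hj
  rw [Finset.mem_filter] at hj
  unfold cc
  congr 2
  ext f
  simp only [Finset.mem_filter, Finset.mem_univ, true_and]
  constructor
  · intro h; exact ⟨by rw [h]; exact hj.2, h⟩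
  · exact fun h => h.2

/-- joint moments -/
def MM {n : ℕ} (X : Finset (Fin n → Fin n)) (i j : ℕ) : ℝ :=
  (∑ p : Equiv.Perm (Fin n), dn X ((ini n i).map p.toEmbedding) *
    dn X ((ini n j).map p.toEmbedding)) / (n.factorial : ℝ)

theorem MM_nonneg {n : ℕ} (X : Finset (Fin n → Fin n)) (i j : ℕ) : 0 ≤ MM X i j := by
  unfold MM
  apply div_nonneg _ (by positivity)
  exact Finset.sum_nonneg (fun p _ => mul_nonneg (dn_nonneg _ _) (dn_nonneg _ _))

theorem MM_le_one {n : ℕ} (X : Finset (Fin n → Fin n)) (i j : ℕ) : MM X i j ≤ 1 := by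
  unfold MM
  have hf : (0 : ℝ) < (n.factorial : ℝ) := by exact_mod_cast Nat.factorial_pos n
  rw [div_le_one hf]
  calc _ ≤ ∑ _p : Equiv.Perm (Fin n), (1 : ℝ) := by
        apply Finset.sum_le_sum
        intro p _
        exact mul_le_one₀ (dn_le_one _ _) (dn_nonneg _ _) (dn_le_one _ _)
    _ = (n.factorial : ℝ) := by
        rw [Finset.sum_const, Finset.card_univ, Fintype.card_perm, Fintype.card_fin, nsmul_eq_mul,
          mul_one]

theorem MM_symm {n : ℕ} (X : Finset (Fin n → Fin n)) (i j : ℕ) : MM X i j = MM X j i := by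
  unfold MM
  congr 1
  apply Finset.sum_congr rfl
  intro p _
  ring

theorem cc_nonneg (n j : ℕ) : 0 ≤ cc n j := by unfold cc; positivity

/-- Cauchy–Schwarz -/
theorem second_total {n : ℕ} (X : Finset (Fin n → Fin n)) :
    (X.card : ℝ) ^ 2 ≤ ∑ i ∈ range (n + 1), ∑ j ∈ range (n + 1), cc n i * cc n j * MM X i j := by
  have hf : (0 : ℝ) < (n.factorial : ℝ) := by exact_mod_cast Nat.factorial_pos n
  set Y : Equiv.Perm (Fin n) → ℝ := fun p =>
    ∑ j ∈ range (n + 1), cc n j * dn X ((ini n j).map p.toEmbedding) with hY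
  have h1 : ∑ p, Y p = (n.factorial : ℝ) * (X.card : ℝ) := by
    rw [hY]
    simp only
    rw [Finset.sum_comm]
    have h2 : ∀ j ∈ range (n + 1), ∑ p : Equiv.Perm (Fin n),
        cc n j * dn X ((ini n j).map p.toEmbedding) =
        (n.factorial : ℝ) * ((X.filter fun f => rk f = j).card : ℝ) := by
      intro j hj
      rw [Finset.mem_range] at hj
      rw [← Finset.mul_sum, mul_comm, first_moment (by omega) X]
    rw [Finset.sum_congr rfl h2, ← Finset.mul_sum]
    congr 1
    have h3 := Finset.card_eq_sum_card_fiberwise (f := fun f : Fin n → Fin n => rk f)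
      (s := X) (t := range (n + 1)) (by
        intro f _
        rw [Finset.mem_coe, Finset.mem_range]
        exact Nat.lt_succ_of_le (rk_le f))
    rw [h3]
    push_cast
    rfl
  have h4 : ∑ p, Y p ^ 2 = (n.factorial : ℝ) *
      ∑ i ∈ range (n + 1), ∑ j ∈ range (n + 1), cc n i * cc n j * MM X i j := by
    have h5 : ∀ p : Equiv.Perm (Fin n), Y p ^ 2 = ∑ i ∈ range (n + 1), ∑ j ∈ range (n + 1),
        cc n i * cc n j * (dn X ((ini n i).map p.toEmbedding) *
          dn X ((ini n j).map p.toEmbedding)) := by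
      intro p
      rw [hY]
      simp only
      rw [sq, Finset.sum_mul_sum]
      apply Finset.sum_congr rfl
      intro i _
      apply Finset.sum_congr rfl
      intro j _
      ring
    rw [Finset.sum_congr rfl (fun p _ => h5 p), Finset.sum_comm, Finset.mul_sum]
    apply Finset.sum_congr rfl
    intro i _
    rw [Finset.sum_comm, Finset.mul_sum]
    apply Finset.sum_congr rfl
    intro j _
    rw [← Finset.mul_sum]
    unfold MM
    field_simp
  have h6 := sq_sum_le_card_mul_sum_sq (s := (univ : Finset (Equiv.Perm (Fin n)))) (f := Y)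
  rw [h1, h4, Finset.card_univ, Fintype.card_perm, Fintype.card_fin] at h6
  set Q := ∑ i ∈ range (n + 1), ∑ j ∈ range (n + 1), cc n i * cc n j * MM X i j with hQ
  have h7 : (n.factorial : ℝ) ^ 2 * (X.card : ℝ) ^ 2 ≤ (n.factorial : ℝ) ^ 2 * Q := by
    nlinarith
  exact le_of_mul_le_mul_left h7 (by positivity)

theorem lym (h1 : SAC) (h2 : SCONC) : SLYM := by
  intro ε hε
  obtain ⟨C1, hC1, hAC⟩ := h1
  obtain ⟨C2, hC2, hCO⟩ := h2
  set e := ε ^ 2 with he
  have hepos : 0 < e := by positivity
  set c := e / (64 * C1) with hc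
  have hcpos : 0 < c := by positivity
  set K0 := 16 * C2 / e + 1 with hK0
  have hK0pos : 0 < K0 := by positivity
  refine ⟨e / 8, c, K0 + c, by positivity, hcpos, by positivity, ?_⟩
  intro κ hκ hκc
  set q0 := (e / 8) / ((4 * K0 + 2) / κ + 2) with hq0
  have hden : 0 < (4 * K0 + 2) / κ + 2 := by positivity
  have hq0pos : 0 < q0 := by positivity
  set s0 := 1 + 2 / κ + 16 * C1 / e with hs0
  have hs0pos : 0 < s0 := by positivity
  refine ⟨q0, hq0pos, ⌈s0 ^ 2⌉₊, ?_⟩
  intro n hn heven X hX
  have hns : s0 ^ 2 ≤ (n : ℝ) := (Nat.le_ceil _).trans (by exact_mod_cast hn)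
  set s := Real.sqrt n with hs
  have hs0s : s0 ≤ s := by
    rw [hs]
    exact Real.le_sqrt_of_sq_le hns
  have hA : 0 ≤ 2 / κ := by positivity
  have hB : 0 ≤ 16 * C1 / e := by positivity
  have hs1 : 1 ≤ s := by linarith
  have hspos : 0 < s := by linarith
  have hnpos : 1 ≤ n := by
    by_contra hc0
    have : n = 0 := by omega
    rw [this] at hns
    have : 0 < s0 ^ 2 := by positivity
    simp at hns
    linarith
  set T := (n : ℝ) ^ n with hT
  have hTpos : 0 < T := by
    have : (0 : ℝ) < n := by exact_mod_cast hnpos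
    positivity
  have hκs : 2 ≤ κ * s := by
    have : 2 / κ ≤ s := by linarith
    rw [div_le_iff₀ hκ] at this
    linarith
  have hsC : 16 * C1 ≤ e * s := by
    have : 16 * C1 / e ≤ s := by linarith
    rw [div_le_iff₀ hepos] at this
    linarith
  have hsumT : ∑ j ∈ range (n + 1), cc n j = T := by
    have := sum_cc n (fun _ => True)
    rw [Finset.filter_true_of_mem (fun _ _ => trivial),
      Finset.filter_true_of_mem (fun _ _ => trivial)] at this
    rw [this, Finset.card_univ, Fintype.card_fun, Fintype.card_fin]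
    push_cast
    rfl
  obtain ⟨r, b, hr, hb, hrb, hPq, hPM⟩ := pigeon n (fun j => cc n j / T) (MM X) e c C1 K0 κ q0 s
    (rho * n) hepos hcpos hC1 hK0pos hκ hκc hq0pos hspos
    (fun j => div_nonneg (cc_nonneg n j) hTpos.le)
    (by rw [← Finset.sum_div, hsumT, div_self hTpos.ne'])
    (by
      intro j
      rw [div_le_iff₀ hTpos]
      exact hAC n hnpos heven j)
    (by
      rw [hc]
      have : 64 * (e / (64 * C1)) * C1 = e := by field_simp
      rw [this])
    hsC
    (by
      rw [← Finset.sum_div, sum_cc n (fun j : ℕ => K0 * s < |(j : ℝ) - rho * n|),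
        div_le_iff₀ hTpos]
      have h3 := (hCO n hnpos K0 hK0pos).1
      have h4 : C2 / K0 ^ 2 ≤ e / 16 := by
        rw [div_le_iff₀ (by positivity)]
        have h5 : 1 ≤ K0 := by
          have : 0 ≤ 16 * C2 / e := by positivity
          linarith
        have h6 : 16 * C2 / e ≤ K0 := by linarith
        rw [div_le_iff₀ hepos] at h6
        nlinarith [mul_le_mul_of_nonneg_left h5 (mul_nonneg hepos.le hK0pos.le)]
      calc _ ≤ C2 / K0 ^ 2 * (n : ℝ) ^ n := h3
        _ ≤ e / 16 * T := mul_le_mul_of_nonneg_right h4 hTpos.le)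
    (MM_nonneg X) (MM_le_one X) (MM_symm X)
    (by
      have h3 := second_total X
      have h4 : ∑ i ∈ range (n + 1), ∑ j ∈ range (n + 1), cc n i / T * (cc n j / T) * MM X i j =
          (∑ i ∈ range (n + 1), ∑ j ∈ range (n + 1), cc n i * cc n j * MM X i j) / T ^ 2 := by
        rw [Finset.sum_div]
        apply Finset.sum_congr rfl
        intro i _
        rw [Finset.sum_div]
        apply Finset.sum_congr rfl
        intro j _
        field_simp
      rw [h4, le_div_iff₀ (by positivity)]
      have h5 : (ε * T) ^ 2 ≤ (X.card : ℝ) ^ 2 := by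
        apply pow_le_pow_left₀ (by positivity) hX
      rw [he]
      nlinarith)
    hκs hs1
    (by
      rw [hq0, div_mul_cancel₀ _ hden.ne'])
  refine ⟨r, b, ?_, ?_, hrb, ?_, ?_⟩
  · refine hr.trans ?_
    nlinarith
  · exact hb
  · have hbd : ((Bd n b ⌊κ * s⌋₊).card : ℝ) =
        ∑ j ∈ (range (n + 1)).filter (fun j => b ≤ j ∧ j < b + ⌊κ * s⌋₊), cc n j := by
      rw [sum_cc n (fun j => b ≤ j ∧ j < b + ⌊κ * s⌋₊)]
      rfl
    rw [hbd]
    rw [← Finset.sum_div, le_div_iff₀ hTpos] at hPq
    exact hPq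
  · have hbd : ((Bd n b ⌊κ * s⌋₊).card : ℝ) =
        ∑ j ∈ (range (n + 1)).filter (fun j => b ≤ j ∧ j < b + ⌊κ * s⌋₊), cc n j := by
      rw [sum_cc n (fun j => b ≤ j ∧ j < b + ⌊κ * s⌋₊)]
      rfl
    rw [hbd]
    have h3 : ∑ f ∈ (Bd n b ⌊κ * s⌋₊).filter (fun f => f ∈ X),
        (∑ I ∈ powersetCard r (im f), dn X I) / ((rk f).choose r : ℝ) =
        ∑ j ∈ (range (n + 1)).filter (fun j => b ≤ j ∧ j < b + ⌊κ * s⌋₊), cc n j * MM X r j := by
      rw [← Finset.sum_fiberwise_of_maps_to (g := fun f : Fin n → Fin n => rk f)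
        (t := (range (n + 1)).filter (fun j => b ≤ j ∧ j < b + ⌊κ * s⌋₊)) (by
          intro f hf
          rw [Finset.mem_filter, Bd, Finset.mem_filter] at hf
          rw [Finset.mem_filter, Finset.mem_range]
          exact ⟨Nat.lt_succ_of_le (rk_le f), hf.1.2⟩)]
      apply Finset.sum_congr rfl
      intro j hj
      rw [Finset.mem_filter, Finset.mem_range] at hj
      have hrj : r ≤ j := by
        have h4 : (r : ℝ) ≤ b := by
          have : 0 ≤ c * s := by positivity
          linarith
        have h5 : r ≤ b := by exact_mod_cast h4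
        omega
      have h6 : ((Bd n b ⌊κ * s⌋₊).filter (fun f => f ∈ X)).filter (fun f => rk f = j) =
          X.filter (fun f => rk f = j) := by
        ext f
        simp only [Bd, Finset.mem_filter, Finset.mem_univ, true_and]
        constructor
        · rintro ⟨⟨_, h7⟩, h8⟩
          exact ⟨h7, h8⟩
        · rintro ⟨h7, h8⟩
          refine ⟨⟨?_, h7⟩, h8⟩
          rw [h8]
          exact hj.2
      rw [h6]
      have h7 := second_moment hrj (by omega : j ≤ n) X
      have hf : (0 : ℝ) < (n.factorial : ℝ) := by exact_mod_cast Nat.factorial_pos n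
      unfold MM
      rw [mul_comm (cc n j), div_mul_eq_mul_div, h7, mul_div_cancel_left₀ _ hf.ne']
    rw [h3]
    have h4 : ∑ j ∈ (range (n + 1)).filter (fun j => b ≤ j ∧ j < b + ⌊κ * s⌋₊),
        cc n j / T * MM X r j =
        (∑ j ∈ (range (n + 1)).filter (fun j => b ≤ j ∧ j < b + ⌊κ * s⌋₊),
          cc n j * MM X r j) / T := by
      rw [Finset.sum_div]
      apply Finset.sum_congr rfl
      intro j _
      ring
    have h5 : ∑ j ∈ (range (n + 1)).filter (fun j => b ≤ j ∧ j < b + ⌊κ * s⌋₊),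
        cc n j / T =
        (∑ j ∈ (range (n + 1)).filter (fun j => b ≤ j ∧ j < b + ⌊κ * s⌋₊), cc n j) / T := by
      rw [Finset.sum_div]
    rw [h4, h5, ← mul_div_assoc] at hPM
    exact (div_le_div_iff_of_pos_right hTpos).1 hPM

end

end Pool.Agent.R361.SG
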